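import Pool.Agent.W979.HS.Count
import Pool.Agent.TH842.A3.Final

set_option autoImplicit false

/-!
# Multi-stack machines which rarely use all stacks but one: exponent three for all algebraic numbers

The Hartmanis-Stearns question asks whether a multi-stack (multitape) machine without input can
write the digits of an algebraic irrational number in real time. We show: a multi-stack machine
which writes the digits of an algebraic irrational number (in real time or not) must, for every
choice of one of its stacks, pop the other stacks at least `c (log N)^3 / (log log N)^5` times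
before `N` digits are written.
-/

namespace Pool.Agent.Results.MP_5bdb63_lc.OneFreeStackExponentThree

open Finset Filter Pool.Agent.W979.HS

theorem general (x : ℝ) (halg : IsAlgebraic ℚ x) (hirr : Irrational x) (b : ℕ) (hb : 2 ≤ b)
    (P : ℕ) (_ : 1 ≤ P) : ∃ c : ℝ, 0 < c ∧ ∃ N0 : ℕ, ∀ N : ℕ, N0 ≤ N →
      c * ((Real.log N) ^ 3 / (Real.log (Real.log N)) ^ 5) ≤ (((Icc 1 N).filter (fun k : ℕ =>
        ∑ j ∈ range (P + 1), (if j = 0 then (1 : ℤ) else if j = P then -1 else 0) *
          digit b x (k + j) ≠ 0)).card : ℝ) := by
  obtain ⟨c, hc, N0, h⟩ := Pool.Agent.TH842.A3.relations_one x halg hirr b hb P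
    (fun j => if j = 0 then (1 : ℤ) else if j = P then -1 else 0) ⟨0, Nat.zero_le _, by simp⟩ 0
  refine ⟨c, hc, N0, fun N hN => ?_⟩
  rw [← mul_div_assoc]
  exact h N hN

open Classical in
/-- The same for the number of interventions in the run of a machine with one stack whose state may
be changed arbitrarily from outside at certain times, where `c` does not depend on the
interventions. -/
theorem one_stack (x : ℝ) (halg : IsAlgebraic ℚ x) (hirr : Irrational x) (b : ℕ) (hb : 2 ≤ b)
    (Q Γ : Type) [Fintype Q] [Fintype Γ] (M : Prog Q Γ) (s : ℕ) :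
    ∃ c : ℝ, 0 < c ∧ ∃ N0 : ℕ, ∀ (q : ℕ → Q) (S : ℕ → List Γ) (ev : ℕ → Prop),
      Traj M q S ev →
      (∀ T i d, (written M q S T)[s + i]? = some d → (d : ℤ) = digit b x (i + 1)) →
      ∀ N T : ℕ, N0 ≤ N → N ≤ (written M q S T).length →
        c * ((Real.log N) ^ 3 / (Real.log (Real.log N)) ^ 5) ≤
          (((range T).filter ev).card : ℝ) :=
  access b x _ (tend 3 5 (by norm_num)) (general x halg hirr b hb) M s

open Classical in
/-- Let `x` be an algebraic irrational number, let a multi-stack machine write (after `s` arbitrary
symbols) the base `b` digits of `x`, and let `k₀` be one of its stacks. The number of steps in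
which some nonempty stack other than `k₀` is popped, before `N` symbols are written, is at least
`c (log N)^3 / (log log N)^5`. No bound for the running time is assumed. -/
theorem result (x : ℝ) (halg : IsAlgebraic ℚ x) (hirr : Irrational x) (b : ℕ) (hb : 2 ≤ b)
    (M : StackMachine) (k₀ : M.ι) (s : ℕ)
    (hw : ∀ T i d, (M.output T)[s + i]? = some d → (d : ℤ) = digit b x (i + 1)) :
    ∃ c : ℝ, 0 < c ∧ ∃ N0 : ℕ, ∀ N T : ℕ, N0 ≤ N → N ≤ (M.output T).length →
      c * ((Real.log N) ^ 3 / (Real.log (Real.log N)) ^ 5) ≤
        (((range T).filter (M.PopOutside k₀)).card : ℝ) :=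
  machine_access b x _ (tend 3 5 (by norm_num)) (general x halg hirr b hb) M k₀ s hw

end Pool.Agent.Results.MP_5bdb63_lc.OneFreeStackExponentThree
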