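import Pool.Agent.TH842.HS.Power

set_option autoImplicit false

/-!
# Power type lower bound for multi-stack machines writing digits of algebraic numbers

The Hartmanis-Stearns question asks whether a multi-stack (multitape) machine without input can
write the digits of an algebraic irrational number in real time.  Let `p` be a prime number and let
`L` be a subfield of `ℚ(x)` such that all primes of `L` above `p` are ramified; if `L ≠ ℚ` is a
Galois extension of `ℚ` (for instance if `x` is a quadratic irrational number and `L = ℚ(x)`) then
there is such a `p` by Minkowski's theorem.  In all bases not divisible by `p`, a multi-stack machine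
which writes the digits of `x`, in real time or not, must, for every choice of one of its stacks,
pop the other stacks at least `c N^δ` times before `N` digits are written.
-/

namespace Pool.Agent.Results.MP_5bdb63_lc.PowerManyPops

open Finset Filter IntermediateField NumberField Pool.Agent.W979.HS

/-- every prime ideal of the ring of integers of `L` which contains the prime number `p` is ramified
(`p ∈ P²`) -/
def AllRamified (L : Type) [Field L] (p : ℕ) : Prop :=
  p.Prime ∧ ∀ P : Ideal (𝓞 L), P.IsPrime → (p : 𝓞 L) ∈ P → (p : 𝓞 L) ∈ P ^ 2

/-- if the subfield `L ≠ ℚ` of `ℚ(x)` is Galois over `ℚ` then there is such a `p` (Minkowski's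
theorem) -/
theorem exists_allRamified (x : ℝ) (halg : IsAlgebraic ℚ x) (L : IntermediateField ℚ ℚ⟮x⟯)
    (hL : L ≠ ⊥) (hgal : IsGalois ℚ L) : ∃ p : ℕ, AllRamified L p := by
  have hint : IsIntegral ℚ x := halg.isIntegral
  have : FiniteDimensional ℚ ℚ⟮x⟯ := adjoin.finiteDimensional hint
  have : NumberField ℚ⟮x⟯ := { to_finiteDimensional := inferInstance }
  have : NumberField L := { to_finiteDimensional := inferInstance }
  have hrank : 1 < Module.finrank ℚ L := by
    have h1 : 0 < Module.finrank ℚ L := Module.finrank_pos
    by_contra h2
    have h3 : Module.finrank ℚ L = 1 := by omega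
    exact hL (finrank_eq_one_iff.1 h3)
  obtain ⟨p, hp, h⟩ := NumberField.exists_not_isUnramifiedAt_int_of_isGalois (K := L)
    (𝒪 := 𝓞 L) hrank
  exact ⟨p, hp, fun P hP hpP =>
    Pool.Agent.H323R2.mem_sq_of_not_unramified L p hp P hP hpP (h P hP hpP)⟩

open Classical in
/-- Let `x` be a real algebraic number, `L` a subfield of `ℚ(x)` and `p` a prime number all of
whose primes in `L` are ramified. For every base `b ≥ 2` not divisible by `p`, every multi-stack
machine which writes (after `s` arbitrary symbols) the base `b` digits of `x`, and every stack `k₀`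
of it, there are `c, δ > 0` such that for all large `N`, by the time at which `N` symbols are
written, there have been at least `c N^δ` steps in which some nonempty stack other than `k₀` is
popped. No bound for the running time is assumed. -/
theorem result (x : ℝ) (halg : IsAlgebraic ℚ x) (L : IntermediateField ℚ ℚ⟮x⟯)
    (p : ℕ) (hp : AllRamified L p) (b : ℕ) (hb : 2 ≤ b) (hpb : ¬ p ∣ b)
    (M : StackMachine) (k₀ : M.ι) (s : ℕ)
    (hw : ∀ T i d, (M.output T)[s + i]? = some d → (d : ℤ) = digit b x (i + 1)) :
    ∃ c δ : ℝ, 0 < c ∧ 0 < δ ∧ ∃ N0 : ℕ, ∀ N T : ℕ, N0 ≤ N → N ≤ (M.output T).length →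
      c * (N : ℝ) ^ δ ≤ (((range T).filter (M.PopOutside k₀)).card : ℝ) := by
  have hint : IsIntegral ℚ x := halg.isIntegral
  have : FiniteDimensional ℚ ℚ⟮x⟯ := adjoin.finiteDimensional hint
  have : NumberField ℚ⟮x⟯ := { to_finiteDimensional := inferInstance }
  have : NumberField L := { to_finiteDimensional := inferInstance }
  exact Pool.Agent.TH842.HS.machine_pow b x
    (Pool.Agent.TH842.HS.rel_of_fail x b hb
      (Pool.Agent.Results.MP_7e9a3a_nt.DigitRelations.relations_fail x halg L
        (algebraMap L ℚ⟮x⟯) p hp.1 hp.2 b hb hpb)) M k₀ s hw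

end Pool.Agent.Results.MP_5bdb63_lc.PowerManyPops
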